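import Pool.Agent.H662.HM.Final4

/-!
# A smoothing criterion for the homeomorphism group of the ball
-/

set_option autoImplicit false

open Set Topology Filter
open scoped ContDiff

namespace Pool.Agent.Results.MP_6da36f_gt.Criterion

open Pool.Agent.H662.HM

universe u

theorem result (E : Type u) [NormedAddCommGroup E] [NormedSpace ℝ E] [FiniteDimensional ℝ E] :
    [IsAE (HB E) ∧ ∀ h : HC E, ∀ ε > 0, ∃ g : HC E, IsSmooth g ∧ Near ε g h,
      ∀ ε > 0, Smoothing (univ : Set (HC E)) ε,
      ∃ r < 1, Smoothing (HC1 E) r].TFAE :=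
  crit_smooth E

end Pool.Agent.Results.MP_6da36f_gt.Criterion
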