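import Pool.Agent.H662.HM.Dap2

/-!
# Discrete approximation for sets of homeomorphisms of the ball
-/

set_option autoImplicit false

open Set Topology Filter
open scoped ContDiff

namespace Pool.Agent.Results.MP_6da36f_gt.Discrete

open Pool.Agent.H662.HM

universe u v

theorem result (E : Type u) [NormedAddCommGroup E] [NormedSpace ℝ E] [FiniteDimensional ℝ E]
    [Nontrivial E] : ∃ η : ℝ, 0 < η ∧
    ∀ Z : Set (HB E), (∀ h : HB E, IsDiffeo ∞ h → h ∈ Z) → Z ⊆ WB E η →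
    ∀ (K : ℕ → Type v) [∀ k, TopologicalSpace (K k)] [∀ k, CompactSpace (K k)]
      (f : ∀ k, K k → Z), (∀ k, Continuous (f k)) →
      ∀ U : Set (Set Z), (∀ u ∈ U, IsOpen u) → ⋃₀ U = univ →
      ∃ g : ∀ k, K k → Z, (∀ k, Continuous (g k)) ∧ (∀ k x, ∃ u ∈ U, f k x ∈ u ∧ g k x ∈ u) ∧
        (∀ k x, IsDiffeo ∞ (g k x).1) ∧
        ∀ z : Z, ∃ V ∈ 𝓝 z, ∀ (j k : ℕ) (x : K j) (y : K k), g j x ∈ V → g k y ∈ V → j = k :=
  dap_final E

end Pool.Agent.Results.MP_6da36f_gt.Discrete
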