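import Pool.Agent.H662.LC.Final

/-!
# A countable sum theorem for locally contractible groups
-/

set_option autoImplicit false

open Set Topology Filter

namespace Pool.Agent.Results.MP_6da36f_gt.GroupSum

open Pool.Agent.H662.LC

universe u

theorem result (G : Type u) [Group G] [TopologicalSpace G] [IsTopologicalGroup G]
    [TopologicalSpace.MetrizableSpace G] (hG : LocContr G)
    (Y : Type u) [TopologicalSpace Y] [TopologicalSpace.MetrizableSpace Y] (A : Set Y)
    (hA : IsClosed A) (f : A → G) (hf : Continuous f)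
    (h : ∀ U : ℕ → Set G, (∀ k, U k ∈ 𝓝 1) → ∃ (P : ℕ → Set A) (u : ∀ k, P k → G),
      ⋃ k, P k = univ ∧ ∀ k, (∀ p : P k, u k p * (f p)⁻¹ ∈ U k) ∧ (Fac (u k) ∨ ExtOpen (u k))) :
    ∃ (O : Set Y) (F : Y → G), IsOpen O ∧ A ⊆ O ∧ ContinuousOn F O ∧ (∀ a : A, F a = f a) ∧
      (ContractibleSpace G → O = univ) := by
  obtain ⟨O, F, hO, hAO, hF, hFf⟩ := ext_of_sum hG hA hf h
  by_cases hc : ContractibleSpace G
  · obtain ⟨F', hF', hFf'⟩ := ext_of_contractible hA hO hAO hF hFf
    exact ⟨univ, F', isOpen_univ, subset_univ _, hF'.continuousOn, hFf', fun _ => rfl⟩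
  · exact ⟨O, F, hO, hAO, hF, hFf, fun h => absurd h hc⟩

end Pool.Agent.Results.MP_6da36f_gt.GroupSum
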