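import Pool.Agent.H662.HM.Ball

/-!
# Sets of homeomorphisms of the ball between the smooth diffeomorphisms and the homeomorphisms
which are nearly affine at arbitrarily small scales are absolute extensors
-/

set_option autoImplicit false

open Set Topology Filter
open scoped ContDiff

namespace Pool.Agent.Results.MP_6da36f_gt.SmoothAR

open Pool.Agent.H662.HM Pool.Agent.H662.HM.HB

universe u v

theorem result (E : Type u) [NormedAddCommGroup E] [NormedSpace ℝ E] [FiniteDimensional ℝ E] :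
    ∃ η : ℝ, 0 < η ∧ IsGδ (WB E η) ∧ (∀ h : HB E, IsDiffeo 1 h → h ∈ WB E η) ∧
    ∀ Z : Set (HB E), (∀ h : HB E, IsDiffeo ∞ h → h ∈ Z) → Z ⊆ WB E η →
      ∀ (Y : Type v) [TopologicalSpace Y] [TopologicalSpace.MetrizableSpace Y] (A : Set Y),
        IsClosed A → ∀ f : A → Z, Continuous f →
          ∃ F : Y → Z, Continuous F ∧ (∀ a : A, F a = f a) ∧ ∀ y, y ∉ A → IsDiffeo ∞ (F y).1 := by
  obtain ⟨η, hη, hη1, hext⟩ := exists_ext E
  refine ⟨η, hη, isGdelta_W hη1, fun h hh => mem_W_of_isDiffeo hη hh, ?_⟩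
  intro Z hZ1 hZ2 Y _ _ A hA f hf
  obtain ⟨F, hF, hFA, hFS⟩ := hext Y A hA (fun a => up (f a).1)
    (continuous_up.comp (continuous_subtype_val.comp hf)) (fun a => up_supp _)
    (fun a => hZ2 (f a).2)
  have hF1 : ∀ y x, 1 ≤ ‖x‖ → (F y).1 x = x := by
    intro y
    by_cases hy : y ∈ A
    · have h1 := hFA ⟨y, hy⟩
      simp only at h1
      rw [h1]
      exact up_supp _
    · exact (hFS y hy).2.2
  have hdA : ∀ a : A, down (F a) (hF1 a) = (f a).1 := by
    intro a
    have h1 := hFA a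
    have h2 : ∀ (g : HG E) (hg : ∀ x, 1 ≤ ‖x‖ → g.1 x = x), g = up (f a).1 →
        down g hg = (f a).1 := by
      intro g hg hgu
      subst hgu
      exact down_up _ _
    exact h2 _ _ h1
  have hdS : ∀ y, y ∉ A → IsDiffeo ∞ (down (F y) (hF1 y)) := fun y hy => isDiffeo_down (hFS y hy)
  have hmem : ∀ y, down (F y) (hF1 y) ∈ Z := by
    intro y
    by_cases hy : y ∈ A
    · have h1 := hdA ⟨y, hy⟩
      simp only at h1
      rw [h1]
      exact (f ⟨y, hy⟩).2
    · exact hZ1 _ (hdS y hy)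
  refine ⟨fun y => ⟨down (F y) (hF1 y), hmem y⟩, ?_, ?_, hdS⟩
  · exact (continuous_down F hF hF1).subtype_mk _
  · intro a
    exact Subtype.ext (hdA a)

end Pool.Agent.Results.MP_6da36f_gt.SmoothAR
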